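import Pool.Agent.X312.HH.Main

/-!
# The standard conjecture of Hodge type for the powers of a variety: a law of one half

Let `X` be a smooth projective variety of dimension `d` over an algebraically closed field, with an ample divisor `D`, and
suppose that `X` satisfies the standard conjecture of Lefschetz type; this is known for example for
abelian varieties, curves, surfaces and complete intersections. The power `X ^ n` gets the divisor
`∑ pr_i ^ * D`. On the primitive algebraic classes of codimension `j` on `X ^ n`, `2 j ≤ n d`, the
conjecture of Hodge type says that the form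

`⟨x, y⟩_j = (-1) ^ j deg (x · y · D ^ (n d - 2 j))`

is positive definite. Let `pos_j(n)` and `neg_j(n)` be the numbers of the positive and of the negative
squares of this form (its inertia, modulo numerical equivalence): the largest numbers of pairwise
orthogonal primitive cycles `z` with `⟨z, z⟩ > 0`, and with `⟨z, z⟩ < 0`. Let `b` be the sum of the Betti
numbers of `X`.

**Theorem.** (1) For each `m ≥ 1`, with `w = m` if `m` is odd and `w = m + 1` if `m` is even: the
conjecture of Hodge type holds for `X ^ m` modulo numerical equivalence, or for **all** `n ≥ 1`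

`∑_j |pos_j(n) - neg_j(n)| ≤ 2 (n d + 1) b ^ w (1 - 2 / b ^ w) ^ (⌊n / w⌋ - 2) ∑_j (pos_j(n) + neg_j(n))`.

(2) Either the conjecture of Hodge type holds for **all** powers of `X`, modulo numerical equivalence,
or the share of the negative squares, `∑_j neg_j(n) / ∑_j (pos_j(n) + neg_j(n))`, tends to `1 / 2`.

So there is nothing between the two extremes: a single primitive class with the wrong sign on a
single power of `X` forces the squares on `X ^ n` to be half positive and half negative, up to an
exponentially small proportion, and this in the sum of the absolute values over the codimensions.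
Conversely, the conjecture for all powers of `X` follows if for infinitely many `n` at least 51 percent
of the squares on `X ^ n` have the right sign, and the conjecture for `X ^ m` follows from this for
one `n` which is large enough (explicitly in terms of `m`, `d` and `b`).

If homological and numerical equivalence agree on `X ^ m` (for abelian varieties over a finite field
this is known for infinitely many `ℓ`, by a theorem of Clozel), then positivity modulo numerical
equivalence is the positivity in the conjecture.

Ingredients of the proof. Let `⟨x, y⟩ = tr (x · *y)` be the form on the cohomology of `X ^ n` given by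
the Lefschetz star operator; it is compatible with external products. A negative primitive class on
`X ^ w` gives two orthogonal algebraic classes `e` and `z` of the same codimension, of which `e` (a
power of the divisor) is positive and `z` is negative. The orthogonal projectors `p_e`, `p_z` and
`ρ = 1 - p_e - p_z` are algebraic correspondences. On `A × (X ^ w) ^ n × A` the signatures of the two
parts cut out by `p_e` and by `p_z` in one factor cancel in each codimension, and what remains after
`n` steps is the signature of the part cut out by `ρ ⊗ ⋯ ⊗ ρ`, whose absolute value is at most the rank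
of this part. The ranks `g_l` of the parts cut out by `ρ ^ {⊗ l}` satisfy a Cauchy-Schwarz inequality
`g_(a + b) ^ 2 ≤ g_(2 a) g_(2 b)` (this is where the square `A × ⋯ × A` is used) and
`g_l ≤ C (b ^ w - 2) ^ l`, so `g_(2 l + 2) ≤ (b ^ w - 2) ^ 2 g_(2 l)`; since the total rank is
`∑_l C(n, l) 2 ^ (n - l) g_l`, the part `g_n` is exponentially smaller than the total rank.
-/

set_option autoImplicit false

open CategoryTheory AlgebraicGeometry Filter Topology

universe u v

namespace Pool.Agent.Results.MP_361a6f_ag.HalfLaw

open Pool.Agent.H914 Pool.Agent.H914.VarClass Pool.Agent.H914.VarClass.Obj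
  Pool.Agent.H281R3.HT Pool.Agent.W539.Ker

variable {k : Type u} [Field k] {𝒱 : VarClass k} {ops : CycleOps 𝒱}

/-- The product of `n + 1` copies of the variety of `P`, with the sum of the pull-backs of its
divisor. -/
noncomputable def power (ops : CycleOps 𝒱) (P : Polarized 𝒱) : ℕ → Polarized 𝒱
  | 0 => P
  | n + 1 => (power ops P n).prod ops P

/-- The sum of the Betti numbers. -/
noncomputable def totalBetti (W : WeilCohomology.{u, v} ops) (P : Polarized 𝒱) : ℕ :=
  Module.finrank W.K (W.H P.X)

/-- The largest number of pairwise orthogonal primitive cycles `z` of codimension `j` with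
`⟨z, z⟩ > 0`. -/
noncomputable def pos (W : WeilCohomology.{u, v} ops) (P : Polarized 𝒱) (j : ℕ) : ℕ :=
  sSup {r | HasFamily W P.X P.D j 1 r}

/-- The largest number of pairwise orthogonal primitive cycles `z` of codimension `j` with
`⟨z, z⟩ < 0`. -/
noncomputable def neg (W : WeilCohomology.{u, v} ops) (P : Polarized 𝒱) (j : ℕ) : ℕ :=
  sSup {r | HasFamily W P.X P.D j (-1) r}

/-- The number of positive squares in all codimensions `j` with `2 j ≤ dim`. -/
noncomputable def allPos (W : WeilCohomology.{u, v} ops) (P : Polarized 𝒱) : ℕ :=
  ∑ j ∈ Finset.range (P.X.dim / 2 + 1), pos W P j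

/-- The number of negative squares in all codimensions `j` with `2 j ≤ dim`. -/
noncomputable def allNeg (W : WeilCohomology.{u, v} ops) (P : Polarized 𝒱) : ℕ :=
  ∑ j ∈ Finset.range (P.X.dim / 2 + 1), neg W P j

/-- The standard conjecture of Hodge type modulo numerical equivalence: `⟨z, z⟩ > 0` for all
primitive cycles `z` of codimension `j`, `2 j ≤ dim`, which are not numerically trivial. -/
def HodgeTypeNum (W : WeilCohomology.{u, v} ops) (P : Polarized 𝒱) : Prop :=
  ∀ j, 2 * j ≤ P.X.dim → ∀ z, Primitive W P.X P.D j z →
    (∃ w, P.X.IsCyc (P.X.dim - j) w ∧ P.X.V.degCycle (ops.mul z w) ≠ 0) →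
    0 < pairing ops P.X P.D j z z

/-- The number `m + 1` if this is odd, and `m + 2` otherwise. -/
def oddNumber (m : ℕ) : ℕ := 2 * ((m + 1) / 2) + 1

/-- The number `2 (n d + 1) b ^ w (1 - 2 / b ^ w) ^ (⌊n / w⌋ - 2)`, where `n = N + 1` (the exponent is
zero if `⌊n / w⌋ < 2`). -/
noncomputable def rate (b w d N : ℕ) : ℝ :=
  2 * (((N + 1) * d : ℕ) + 1) * (b : ℝ) ^ w * (1 - 2 / (b : ℝ) ^ w) ^ ((N + 1) / w - 2)

/-- **The law of one half for the standard conjecture of Hodge type on the powers of a variety.** -/
theorem result (W : WeilCohomology.{u, v} ops) (P : Polarized 𝒱) (hD : P.X.IsCyc 1 P.D)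
    (hdeg : 0 < P.X.V.degCycle (divPow ops P.D P.X.dim P.X.V.fundCycle))
    (hHL : HardLefschetz W P.X P.D) (hB : LefschetzB W P.X P.D) :
    (∀ m, HodgeTypeNum W (power ops P m) ∨
      ∀ N, ∑ j ∈ Finset.range ((power ops P N).X.dim / 2 + 1),
        |(pos W (power ops P N) j : ℝ) - neg W (power ops P N) j| ≤
          rate (totalBetti W P) (oddNumber m) P.X.dim N *
            ((allPos W (power ops P N) : ℝ) + allNeg W (power ops P N))) ∧
    ((∀ m, HodgeTypeNum W (power ops P m)) ∨
      Tendsto (fun N => (allNeg W (power ops P N) : ℝ) /
        (allPos W (power ops P N) + allNeg W (power ops P N))) atTop (𝓝 (1 / 2))) := by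
  obtain ⟨f, G⟩ := exists_gd hD hHL hB
  let A : Pool.Agent.X312.HH.Bd W := ⟨P.X, P.D, f⟩
  have hv : Pool.Agent.X312.HH.Vol W A.X A.D A.f := Pool.Agent.X312.HH.vol_of_deg G.fr hdeg
  have hpow : ∀ n, power ops P n = Pool.Agent.X312.HH.power ops ⟨A.X, A.D⟩ n := by
    intro n
    induction n with
    | zero => rfl
    | succ n ih => rw [power, ih]; rfl
  have hpos : ∀ m, HodgeTypeNum W (power ops P m) ↔
      Pool.Agent.X312.HH.Pos W (Pool.Agent.X312.HH.power ops ⟨A.X, A.D⟩ m) := by
    intro m
    rw [hpow]
    exact Iff.rfl
  refine ⟨fun m => ?_, ?_⟩
  · by_cases hm : HodgeTypeNum W (power ops P m)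
    · exact Or.inl hm
    · right
      intro N
      rw [hpow]
      exact (Pool.Agent.X312.HH.law (A := A) G hv ((not_congr (hpos m)).1 hm)).2 N
  · rcases Pool.Agent.X312.HH.dichotomy (A := A) G hv with h | h
    · exact Or.inl fun m => (hpos m).2 (h m)
    · right
      refine h.congr fun N => ?_
      rw [hpow]
      rfl

end Pool.Agent.Results.MP_361a6f_ag.HalfLaw
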