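import Pool.Agent.X305.PE.Fin

open CategoryTheory AlgebraicGeometry Polynomial

universe u v

open Pool.Agent.H914 Pool.Agent.H914.VarClass Pool.Agent.H914.VarClass.Obj
  Pool.Agent.X305.HA Pool.Agent.X305.PI Pool.Agent.X305.PE

/-- **The standard conjecture of Hodge type from multiplicity one of the Tate classes under a
correspondence.** Let `X` be a smooth proper variety of dimension `2 n + g` over the algebraic closure
of a finite field of characteristic `p`, `D` an ample divisor, `W ℓ` the `ℓ`-adic cohomology, `ℓ ≠ p`,
and suppose that `X` and `D` satisfy the conjecture `A` of Lefschetz type. Let `f` be the Frobenius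
endomorphism over a finite field with `q` elements over which `X`, `D` and all classes of cycles of
codimension `n` are defined. Suppose that `X` and `D` lift to characteristic zero together with an
algebraic self-correspondence `A` (of degree `0`: an endomorphism, a Hecke operator, ...) whose action
on the primitive cohomology in degree `2 n` is self-adjoint for the form of the conjecture: the
primitive cohomology comes from a polarized rational Hodge structure `B` and `A` acts on it by a
self-adjoint endomorphism `α` of the Hodge structure `B`. Nothing is assumed about lifting cycles of
codimension `n`, and the Tate conjecture is not assumed. Let `E` be a number field with a real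
embedding `τ`, over which `α` is diagonalisable, and let `Λ` be the set of its eigenvalues. For `μ` in
`Λ` let `R μ` be the characteristic polynomial of `q ^ (-n) f^*` on the `μ`-eigenspace of `A` in the
primitive cohomology (it has coefficients in `E` and does not depend on `ℓ`, its roots have absolute
value `1`, and `-1` is not a root after passing to the square of `f`); the multiplicity of its root `1`
is the number of Tate classes in the eigenspace. Suppose that for each `μ` this number is at most
`1`.

Then the standard conjecture of Hodge type holds for `X`, `D` in codimension `n`: `(-1) ^ n deg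
(z · z · D ^ g) > 0` (1) for all cycles `z` of codimension `n` which are numerically primitive and are
not numerically equivalent to zero; (2) for all cycles `z` whose class in the `ℓ`-adic cohomology is
primitive and is not zero, if the field `E` has an embedding in `ℚ_ℓ`. There are infinitely many
such `ℓ`, and for them homological and numerical equivalence coincide on the primitive cycles of
codimension `n`. -/
theorem Pool.Agent.Results.MP_361a6f_ag.MultiplicityOneTate.result {k : Type u} [Field k]
    {𝒱 : VarClass k} {ops : CycleOps 𝒱} {p : ℕ} {W : PrimesNe p → WeilCohomology.{u, v} ops}
    {X : 𝒱.Obj} {D : X.Cycles} {n g : ℕ} {f : X ⟶ X} {q : ℕ} {B : Type} [AddCommGroup B]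
    [Module ℚ B] {H : PolarizedHodge B} {c : ∀ ℓ, B →+ (W ℓ).H X} {A : (X.prod X).Cycles}
    {α : B →ₗ[ℚ] B} (h : IsReductionWith W X D n g f q H c A α) {E : Type} [Field E]
    [NumberField E] {τ : E →+* ℝ} {Λ : Finset E} {R : E → E[X]}
    (hM : MultiplicityOne W X D n g f q A α τ Λ R) :
    PositiveAt ops X D n g ∧
      ∀ ℓ : PrimesNe p, Nonempty (E →+* ℚ_[ℓ]) → HodgeTypeAt (W ℓ) X D n g :=
  ⟨positiveAt h hM, fun ℓ hℓ => hodgeTypeAt h hM ℓ hℓ⟩
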