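import Pool.Agent.X268.DG.HT

/-!
# The standard conjecture of Hodge type for abelian varieties with semistable degenerations

Let `k` be an algebraically closed field of characteristic `p` and `X` an abelian variety over `k`, **of
any dimension**, which has totally toric semistable reduction at one place: over a local field `F` of
characteristic `p` (a field of Laurent series over a finite field) over which `X` is defined (`X` is
defined over a finitely generated field `K`, and `F` contains `K`). Then the standard conjecture of Hodge
type holds for `X`, for the cycles of all codimensions and the `ℓ`-adic cohomology, `ℓ ≠ p`. The same is
true if the reduction of `X` over `F` is semistable with *any* toric rank `t` and with an abelian part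
`B` that has dimension at most four, or is isogenous to a product of elliptic curves and abelian surfaces
(any number of them), or, more generally, all the multiplicative relations between the eigenvalues of
whose Frobenius endomorphism are elementary (`HasElementaryRelationsS`).

In the Lean statement `A` is the ring of algebraic cycles with rational coefficients on `X` modulo
`ℓ`-adic homological equivalence, with the subspaces `gr i` of the classes of codimension `i`, the degree
`deg` of zero-cycles and an ample divisor `D` (`IsCycleRing`). The structure `Degenerates` contains
the facts on the degeneration that are used: the Tate module of `X` is the sum of the weight spaces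
`Ω ^ t`, `Ω ^ t` and `T B` of a Frobenius element; the classes of cycles are forms of weight zero on it,
fixed by the inertia group (by `exp N`, where the monodromy operator `N` maps the second space `Ω ^ t` to
the first one), and the forms on `T B` obtained from them by inserting rational vectors of the
toric part are classes of algebraic cycles with rational coefficients on `B` (specialization of
cycles to a semistable model of Mumford and Künnemann, and the weight spectral sequence of Rapoport and
Zink). The spaces `C Y κ` of the rational classes of algebraic cycles on the abelian varieties `Y` over
an algebraic closure of the field with `p` elements have the properties in `IsCycleSystemS`,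
`IsRosatiPositive` and `AreTate`, all of which are known theorems (Tate, Lefschetz, Markman, Ramón Marí,
Weil). No conjecture is assumed.

The proof: by the classical invariant theory of `SL 2` the rational forms of weight zero on the toric
part that are fixed by `exp N` are exactly the polynomials in the classes of divisors on the power `E ^ t`
of the *supersingular* elliptic curve `E` with complex multiplication by `√-p`. So each class of a
cycle on `X` is the class of an algebraic cycle on `B × E ^ t`, and the class of `D` is the class
of a polarization; this is compatible with products. So the standard conjecture of Hodge type for `X`
follows from the one for `B × E ^ t`.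
-/

set_option autoImplicit false

universe u

namespace Pool.Agent.Results.MP_361a6f_ag.SemistableDegenerations

open Module Pool.Agent.W495.TA Pool.Agent.W547.KB Pool.Agent.TH117.PO Pool.Agent.TH117.BL
  Pool.Agent.Y137.HS Pool.Agent.Y137.HD Pool.Agent.Y137.SF Pool.Agent.X268.DG

/-- **The standard conjecture of Hodge type for abelian varieties (of any dimension, over any
algebraically closed field of characteristic `p`) that have semistable reduction over some local field, of
any toric rank, with an abelian part of dimension at most four or with elementary relations** (for instance
totally toric reduction). -/
theorem result (p : ℕ) [Fact p.Prime] (ν : PadicAlgCl p ≃+* ℂ) (Ω : Type) [Field Ω]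
    [IsAlgClosed Ω] [CharZero Ω]
    (C : (Y : RedAV p ν) → (κ : Type) → ((TM Ω Y) [⋀^κ]→ₗ[Ω] Ω) → Prop)
    (hC : IsCycleSystemS Ω C) (hR : IsRosatiPositive Ω C) (hT : AreTate Ω C)
    {A : Type u} [CommRing A] [Algebra ℚ A] (n : ℕ) (gr : ℕ → Submodule ℚ A) (deg : A →ₗ[ℚ] ℚ)
    (D : A) (hX : IsCycleRing n gr deg D)
    (t : ℕ) (c : Fin t → ℚ) (hc : ∀ i, 0 < c i) (B : RedAV p ν)
    (hB : finrank ℚ B.X.H1 ≤ 8 ∨
      ∃ Z : RedAV p ν, HasElementaryRelationsS Z ∧ IsPowersTimesSupersingular Z B)
    (β : B.X.H1) (hβ : IsPolar B.X β)
    (cls : ∀ r : ℕ, A → FormT Ω t B (Fin r × Fin 2))
    (h : Degenerates C n gr D t c B β cls) : IsOfHodgeType n gr deg D :=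
  hodgeType_of_degenerates hC hR hT hB hc hβ h hX

end Pool.Agent.Results.MP_361a6f_ag.SemistableDegenerations
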