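import Pool.Agent.H281R3.HT.Main

/-!
# The standard conjecture of Hodge type for products of varieties of supersingular type

Let `W` be a Weil cohomology theory on a class of smooth proper varieties over a field, and `P j` a
family (finite or infinite) of varieties `X j` with divisors `D j` which satisfy hard Lefschetz, such
that

* the transcendental cohomology of `X j` (the orthogonal complement of all algebraic classes) is
  concentrated in the middle degree;
* all products of a transcendental class on `X i` and a transcendental class on `X j` are
  combinations of algebraic classes on `X i × X j` (`ExternallyAlgebraic`).

Over an algebraic closure of a finite field the second condition says (assuming the Tate conjecture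
in the middle codimension of `X i × X j`) that the `X j` are supersingular: all eigenvalues of
Frobenius on the middle cohomology are `q ^ (n / 2)` times roots of unity. It is known for instance
for supersingular curves, and for supersingular threefolds dominated by products of curves.

Then the standard conjecture of Hodge type holds for all products of the `X j`, with any number of
factors, any repetitions and any bracketing, together with homological = numerical equivalence, if
and only if it holds for the `X j` and for the products `X i × X j` of two of them. Neither the
conjectures A and B nor Künneth nor homological = numerical equivalence are assumed.

The proof is in the starting files `Pool/Agent/H281R3/HT`, whose theorem had not been handed in.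
-/

open Pool.Agent.H914 Pool.Agent.H281R3.HT

universe u v w

namespace Pool.Agent.Results.MP_361a6f_ag.SupersingularProducts

/-- **The conjecture of Hodge type for all products is equivalent to the conjecture for the
products of two factors, for varieties of supersingular type.** -/
theorem result {k : Type u} [Field k] {𝒱 : VarClass k} {ops : CycleOps 𝒱}
    (W : WeilCohomology.{u, v} ops) {ι : Type w} (P : ι → Polarized 𝒱)
    (hD : ∀ j, (P j).X.IsCyc 1 (P j).D) (hHL : ∀ j, HardLefschetz W (P j).X (P j).D)
    (hmid : ∀ j, transcendental W (P j).X ≤ W.gr (P j).X (P j).X.dim)
    (hE : ∀ i j, ExternallyAlgebraic W (P i).X (P j).X) :
    ((∀ j, HodgeType W (P j).X (P j).D) ∧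
      ∀ i j, HodgeType W ((P i).prod ops (P j)).X ((P i).prod ops (P j)).D) ↔
      ∀ Q, IsProduct ops P Q → HodgeType W Q.X Q.D ∧ HomEqNum W Q.X :=
  hodge_products_iff_pairs hD hHL hmid hE

end Pool.Agent.Results.MP_361a6f_ag.SupersingularProducts
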